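import Pool.Agent.Helper12.Final

/-!
MP_ecbc8a_al: the structure of locally finite, locally 2-soluble groups with an `S_2`-sparse subgroup of finite index,
in the words of the problem file.
-/

set_option autoImplicit false

namespace Pool.Agent.Results.MP_ecbc8a_al.StructureAtTwo

/-! ### Definitions -/

/-- every finitely generated subgroup is finite -/
def LocallyFinite (G : Type) [Group G] : Prop := ∀ H : Subgroup G, H.FG → Finite H

/-- `p'`-group: every element has finite order, and `p` does not divide this order -/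
def IsPrimeTo (p : ℕ) (G : Type) [Group G] : Prop := ∀ x : G, IsOfFinOrder x ∧ ¬ p ∣ orderOf x

/-- `N` is a normal subgroup of `M`, the quotient `M / N` is simple, and it is a `p`-group or a `p'`-group. -/
def Factor (p : ℕ) {X : Type} [Group X] (N M : Subgroup X) : Prop :=
  N ≤ M ∧ ∃ _ : (N.subgroupOf M).Normal, IsSimpleGroup (M ⧸ N.subgroupOf M) ∧
    (IsPGroup p (M ⧸ N.subgroupOf M) ∨ IsPrimeTo p (M ⧸ N.subgroupOf M))

/-- `X` has a composition series all of whose factors are `p`-groups or `p'`-groups. -/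
def PSoluble (p : ℕ) (X : Type) [Group X] : Prop :=
  ∃ (n : ℕ) (S : ℕ → Subgroup X), S 0 = ⊥ ∧ S n = ⊤ ∧ ∀ i < n, Factor p (S i) (S (i + 1))

/-- every finite subgroup is `p`-soluble -/
def LocallyPSoluble (p : ℕ) (G : Type) [Group G] : Prop :=
  ∀ K : Subgroup G, Finite K → PSoluble p K

/-- `S_p`-sparse: every countable subgroup has fewer than continuum many Sylow `p`-subgroups (that is, maximal
`p`-subgroups). -/
def Sparse (p : ℕ) (G : Type) [Group G] : Prop :=
  ∀ H : Subgroup G, Countable H → Cardinal.mk (Sylow p H) < Cardinal.continuum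

/-- `O_p(G)`, the join of all normal `p`-subgroups; it is the largest one (`isGreatest_O`). -/
def O (p : ℕ) (G : Type) [Group G] : Subgroup G := sSup {N | N.Normal ∧ IsPGroup p N}

/-- `O_{p'}(G)`, the join of all normal `p'`-subgroups; it is the largest one (`isGreatest_O'`). -/
def O' (p : ℕ) (G : Type) [Group G] : Subgroup G := sSup {N | N.Normal ∧ IsPrimeTo p N}

instance O_normal (p : ℕ) (G : Type) [Group G] : (O p G).Normal :=
  Subgroup.sSup_normal _ fun _ h => h.1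

instance O'_normal (p : ℕ) (G : Type) [Group G] : (O' p G).Normal :=
  Subgroup.sSup_normal _ fun _ h => h.1

/-- `O_{p,p'}(G)`: the subgroup containing `O_p(G)` with `O_{p,p'}(G) / O_p(G) = O_{p'}(G / O_p(G))`. -/
def OO (p : ℕ) (G : Type) [Group G] : Subgroup G := (O' p (G ⧸ O p G)).comap (QuotientGroup.mk' (O p G))

instance OO_normal (p : ℕ) (G : Type) [Group G] : (OO p G).Normal := by
  unfold OO
  infer_instance

/-- `O_{p,p',p}(G)`: the subgroup containing `O_{p,p'}(G)` with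
`O_{p,p',p}(G) / O_{p,p'}(G) = O_p(G / O_{p,p'}(G))`. -/
def OOO (p : ℕ) (G : Type) [Group G] : Subgroup G := (O p (G ⧸ OO p G)).comap (QuotientGroup.mk' (OO p G))

/-- min-`p`: there is no infinite strictly descending chain of `p`-subgroups. -/
def MinP (p : ℕ) (G : Type) [Group G] : Prop :=
  ∀ H : ℕ → Subgroup G, (∀ n, IsPGroup p (H n)) → ¬ StrictAnti H

/-! ### The largest normal subgroups -/

theorem primeTo_sup {p : ℕ} (hp : p.Prime) {G : Type} [Group G] {N M : Subgroup G} (hM : M.Normal)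
    (h1 : IsPrimeTo p N) (h2 : IsPrimeTo p M) : IsPrimeTo p (N ⊔ M : Subgroup G) := by
  rintro ⟨x, hx⟩
  rw [Subgroup.mem_sup_of_normal_right] at hx
  obtain ⟨a, ha, b, hb, rfl⟩ := hx
  obtain ⟨ha1, ha2⟩ := h1 ⟨a, ha⟩
  rw [Subgroup.orderOf_mk] at ha2
  set k := orderOf a with hk
  have hk0 : 0 < k := by
    rw [← orderOf_pos_iff, Subgroup.orderOf_mk] at ha1
    exact ha1
  have hmem : (a * b) ^ k ∈ M := by
    have h3 : ((a * b : G) : G ⧸ M) = (a : G ⧸ M) := by
      rw [QuotientGroup.eq]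
      simpa [mul_assoc] using M.inv_mem hb
    rw [← QuotientGroup.eq_one_iff, QuotientGroup.mk_pow, h3, ← QuotientGroup.mk_pow, hk,
      pow_orderOf_eq_one, QuotientGroup.mk_one]
  obtain ⟨hc1, hc2⟩ := h2 ⟨_, hmem⟩
  rw [Subgroup.orderOf_mk] at hc2
  set l := orderOf ((a * b) ^ k) with hl
  have hl0 : 0 < l := by
    rw [← orderOf_pos_iff, Subgroup.orderOf_mk] at hc1
    exact hc1
  have hone : (a * b) ^ (k * l) = 1 := by
    rw [pow_mul, hl, pow_orderOf_eq_one]
  have hdvd : orderOf (a * b) ∣ k * l := orderOf_dvd_of_pow_eq_one hone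
  have hfin : IsOfFinOrder (a * b) := isOfFinOrder_iff_pow_eq_one.2 ⟨k * l, Nat.mul_pos hk0 hl0, hone⟩
  refine ⟨?_, ?_⟩
  · rw [← orderOf_pos_iff, Subgroup.orderOf_mk]
    exact orderOf_pos_iff.2 hfin
  · rw [Subgroup.orderOf_mk]
    intro h
    rcases (hp.dvd_mul).1 (h.trans hdvd) with h4 | h4
    · exact ha2 h4
    · exact hc2 h4

theorem isGreatest_of {G : Type} [Group G] (P : Subgroup G → Prop) (h0 : P ⊥)
    (hsup : ∀ N M : Subgroup G, N.Normal → M.Normal → P N → P M → P (N ⊔ M))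
    (hloc : ∀ N : Subgroup G, (∀ x ∈ N, ∃ M : Subgroup G, P M ∧ x ∈ M) → P N) :
    IsGreatest {N : Subgroup G | N.Normal ∧ P N} (sSup {N | N.Normal ∧ P N}) := by
  refine ⟨⟨Subgroup.sSup_normal _ fun _ h => h.1, hloc _ fun x hx => ?_⟩, fun N hN => le_sSup hN⟩
  have hd : DirectedOn (· ≤ ·) {N : Subgroup G | N.Normal ∧ P N} := by
    rintro N ⟨hN1, hN2⟩ M ⟨hM1, hM2⟩
    have := hN1
    have := hM1
    exact ⟨N ⊔ M, ⟨inferInstance, hsup N M hN1 hM1 hN2 hM2⟩, le_sup_left, le_sup_right⟩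
  have hne : {N : Subgroup G | N.Normal ∧ P N}.Nonempty := ⟨⊥, inferInstance, h0⟩
  obtain ⟨M, hM, hxM⟩ := (Subgroup.mem_sSup_of_directedOn hne hd).1 hx
  exact ⟨M, hM.2, hxM⟩

theorem isGreatest_O (p : ℕ) [Fact p.Prime] (G : Type) [Group G] :
    IsGreatest {N : Subgroup G | N.Normal ∧ IsPGroup p N} (O p G) := by
  refine isGreatest_of (fun N => IsPGroup p N) IsPGroup.of_bot (fun N M hN _ h1 h2 => ?_) ?_
  · have := hN
    exact h1.to_sup_of_normal_left h2
  · intro N h x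
    obtain ⟨M, hM, hx⟩ := h x x.2
    obtain ⟨k, hk⟩ := hM ⟨x, hx⟩
    refine ⟨k, Subtype.ext ?_⟩
    simpa using congrArg (Subtype.val) hk

theorem isGreatest_O' (p : ℕ) [hp : Fact p.Prime] (G : Type) [Group G] :
    IsGreatest {N : Subgroup G | N.Normal ∧ IsPrimeTo p N} (O' p G) := by
  refine isGreatest_of (fun N => IsPrimeTo p N) ?_ (fun N M _ hM h1 h2 => primeTo_sup hp.out hM h1 h2) ?_
  · intro x
    have : x = 1 := Subsingleton.elim _ _
    rw [this]
    exact ⟨IsOfFinOrder.one, by rw [orderOf_one]; exact hp.out.one_lt.ne' ∘ Nat.dvd_one.1⟩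
  · intro N h x
    obtain ⟨M, hM, hx⟩ := h x x.2
    obtain ⟨h1, h2⟩ := hM ⟨x, hx⟩
    refine ⟨?_, ?_⟩
    · rw [← orderOf_pos_iff, ← Subgroup.orderOf_coe]
      rw [← orderOf_pos_iff, Subgroup.orderOf_mk] at h1
      exact h1
    · rw [← Subgroup.orderOf_coe]
      rw [Subgroup.orderOf_mk] at h2
      exact h2

/-! ### Comparison with the proof -/

theorem series {p : ℕ} {G : Type} [Group G] (K : Subgroup G) (h : PSoluble p K) :
    ∃ n : ℕ, ∃ S : ℕ → Subgroup G, S 0 = ⊥ ∧ S n = K ∧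
      ∀ i < n, S i ≤ S (i + 1) ∧ ((S i).subgroupOf (S (i + 1))).Normal ∧
        ((∀ x ∈ S (i + 1), ∃ k : ℕ, x ^ (p ^ k : ℕ) ∈ S i) ∨
         (∀ x ∈ S (i + 1), ∃ m : ℕ, ¬ p ∣ m ∧ x ^ m ∈ S i)) := by
  obtain ⟨n, S, h0, hn, hS⟩ := h
  refine ⟨n, fun i => (S i).map K.subtype, ?_, ?_, fun i hi => ?_⟩
  · show (S 0).map K.subtype = ⊥
    rw [h0, Subgroup.map_bot]
  · show (S n).map K.subtype = K
    rw [hn, ← MonoidHom.range_eq_map, Subgroup.range_subtype]
  · obtain ⟨hle, hnor, -, hfac⟩ := hS i hi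
    have hle' : (S i).map K.subtype ≤ (S (i + 1)).map K.subtype := Subgroup.map_mono hle
    refine ⟨hle', ?_, ?_⟩
    · rw [Subgroup.normal_subgroupOf_iff hle']
      rintro _ _ ⟨a, ha, rfl⟩ ⟨b, hb, rfl⟩
      exact ⟨b * a * b⁻¹, (Subgroup.normal_subgroupOf_iff hle).1 hnor a b ha hb, rfl⟩
    · refine hfac.imp (fun h1 => ?_) (fun h1 => ?_)
      · rintro _ ⟨a, ha, rfl⟩
        obtain ⟨k, hk⟩ := h1 (QuotientGroup.mk ⟨a, ha⟩)
        refine ⟨k, a ^ p ^ k, ?_, rfl⟩
        rw [← QuotientGroup.mk_pow, QuotientGroup.eq_one_iff, Subgroup.mem_subgroupOf] at hk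
        exact hk
      · rintro _ ⟨a, ha, rfl⟩
        obtain ⟨h2, h3⟩ := h1 (QuotientGroup.mk ⟨a, ha⟩)
        refine ⟨_, h3, a ^ _, ?_, rfl⟩
        have h4 := pow_orderOf_eq_one
          (QuotientGroup.mk ⟨a, ha⟩ : S (i + 1) ⧸ (S i).subgroupOf (S (i + 1)))
        rw [← QuotientGroup.mk_pow, QuotientGroup.eq_one_iff, Subgroup.mem_subgroupOf] at h4
        exact h4

theorem sylow_le {p : ℕ} {G : Type} [Group G] {H K : Subgroup G} (h : H ≤ K) :
    Cardinal.mk (Sylow p H) ≤ Cardinal.mk (Sylow p (H.subgroupOf K)) := by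
  set e : H.subgroupOf K ≃* H := Subgroup.subgroupOfEquivOfLe h with he
  have hr : ∀ P : Sylow p H, (P : Subgroup H) ≤ (e : H.subgroupOf K →* H).range := fun P x _ =>
    ⟨e.symm x, e.apply_symm_apply x⟩
  refine Cardinal.mk_le_of_injective
    (f := fun P : Sylow p H => P.comapOfInjective (e : H.subgroupOf K →* H) e.injective (hr P)) ?_
  intro P Q hPQ
  have h1 : ((P.comapOfInjective (e : H.subgroupOf K →* H) e.injective (hr P) :
      Sylow p (H.subgroupOf K)) : Subgroup (H.subgroupOf K)) =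
      (Q.comapOfInjective (e : H.subgroupOf K →* H) e.injective (hr Q) :
      Sylow p (H.subgroupOf K)) := congrArg _ hPQ
  rw [Sylow.coe_comapOfInjective, Sylow.coe_comapOfInjective] at h1
  exact Sylow.ext (Subgroup.comap_injective e.surjective h1)

theorem countable_of_le {G : Type} [Group G] {H K : Subgroup G} (h : H ≤ K) [Countable H] :
    Countable (H.subgroupOf K) :=
  (Subgroup.subgroupOfEquivOfLe h).toEquiv.countable_iff.2 inferInstance

/-- If a locally finite, locally 2-soluble group `G` has an `S_2`-sparse subgroup of finite index, then `O_{2,2',2}(G)` has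
finite index in `G`, and `G / O_2(G)` satisfies min-2. -/
theorem result (G : Type) [Group G] (hf : LocallyFinite G) (hs : LocallyPSoluble 2 G)
    (h : ∃ K : Subgroup G, K.FiniteIndex ∧ Sparse 2 K) :
    (OOO 2 G).FiniteIndex ∧ MinP 2 (G ⧸ O 2 G) := by
  obtain ⟨K, hK, hKs⟩ := h
  obtain ⟨⟨A, B, C, hA, hB, hC, hAB, hBC, hCi, hAp, hBp, hCp⟩, hmin⟩ :=
    Pool.Agent.Helper12.TwoLen.main_thm G hf (fun L hL => by
      obtain ⟨n, S, h0, hn, hS⟩ := series L (hs L (hf L hL))
      refine ⟨n, S, h0, hn, fun i hi => ?_⟩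
      obtain ⟨h1, h2, h3⟩ := hS i hi
      refine ⟨h1, h2, h3.imp id fun h4 x hx => ?_⟩
      obtain ⟨m, hm, hm2⟩ := h4 x hx
      exact ⟨m, Nat.not_even_iff_odd.1 fun h5 => hm h5.two_dvd, hm2⟩)
      ⟨K, hK, fun H hHK hH => (sylow_le hHK).trans_lt
        (hKs _ (@countable_of_le G _ H K hHK hH))⟩
  refine ⟨?_, ?_⟩
  · have hA' : A ≤ O 2 G := le_sSup ⟨hA, hAp⟩
    have hB' : B ≤ OO 2 G := by
      refine Subgroup.map_le_iff_le_comap.1 (le_sSup ⟨hB.map _ (QuotientGroup.mk'_surjective _), ?_⟩)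
      intro y
      obtain ⟨b, hb, hby⟩ := y.2
      obtain ⟨m, hm, hbm⟩ := hBp b hb
      have h1 : (y : G ⧸ O 2 G) ^ m = 1 := by
        rw [← hby, ← map_pow]
        exact (QuotientGroup.eq_one_iff _).2 (hA' hbm)
      have h2 : orderOf y ∣ m := orderOf_dvd_of_pow_eq_one (Subtype.ext h1)
      refine ⟨orderOf_pos_iff.1 (Nat.pos_of_dvd_of_pos h2 hm.pos), fun h3 => ?_⟩
      exact (Nat.not_even_iff_odd.2 hm) (even_iff_two_dvd.2 (h3.trans h2))
    have hC' : C ≤ OOO 2 G := by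
      refine Subgroup.map_le_iff_le_comap.1 (le_sSup ⟨hC.map _ (QuotientGroup.mk'_surjective _), ?_⟩)
      rintro ⟨_, c, hc, rfl⟩
      obtain ⟨k, hk⟩ := hCp c hc
      refine ⟨k, Subtype.ext ?_⟩
      show (QuotientGroup.mk' (OO 2 G) c) ^ 2 ^ k = 1
      rw [← map_pow]
      exact (QuotientGroup.eq_one_iff _).2 (hB' hk)
    exact Subgroup.finiteIndex_of_le hC'
  · intro H hH hanti
    have h0 : ∀ n, IsPGroup 2 ((H n).comap (QuotientGroup.mk' (O 2 G))) ∧
        sSup {N : Subgroup G | N.Normal ∧ IsPGroup 2 N} ≤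
          (H n).comap (QuotientGroup.mk' (O 2 G)) := by
      intro n
      constructor
      · rintro ⟨x, hx⟩
        obtain ⟨k, hk⟩ := hH n ⟨_, hx⟩
        have h1 : QuotientGroup.mk' (O 2 G) (x ^ 2 ^ k) = 1 := by
          rw [map_pow]
          exact congrArg Subtype.val hk
        have h2 : x ^ 2 ^ k ∈ O 2 G := (QuotientGroup.eq_one_iff _).1 h1
        obtain ⟨l, hl⟩ := (isGreatest_O 2 G).1.2 ⟨_, h2⟩
        refine ⟨k + l, Subtype.ext ?_⟩
        show x ^ 2 ^ (k + l) = 1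
        rw [pow_add, pow_mul]
        exact congrArg Subtype.val hl
      · intro x hx
        show QuotientGroup.mk' (O 2 G) x ∈ H n
        have h1 : QuotientGroup.mk' (O 2 G) x = 1 := (QuotientGroup.eq_one_iff _).2 hx
        rw [h1]
        exact one_mem _
    obtain ⟨N, hN⟩ := hmin (fun n => (H n).comap (QuotientGroup.mk' (O 2 G)))
      (fun i j hij => Subgroup.comap_mono (hanti.antitone hij)) h0
    have h2 := Subgroup.comap_injective (QuotientGroup.mk'_surjective (O 2 G))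
      (hN (N + 1) (Nat.le_succ N))
    exact (hanti (Nat.lt_succ_self N)).ne h2

end Pool.Agent.Results.MP_ecbc8a_al.StructureAtTwo
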